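import Pool.Agent.Helper935.EX.Par

open scoped ENNReal

namespace Pool.Agent.Results.MP_977360_an.BernsteinNorm

/-- `F` has exponential type at most `σ`. -/
def HasExpType (σ : ℝ) (F : ℂ → ℂ) : Prop :=
  ∀ ε : ℝ, 0 < ε → ∃ C : ℝ, ∀ z : ℂ, ‖F z‖ ≤ C * Real.exp ((σ + ε) * ‖z‖)

/-- The space `B_σ`: bounded functions on the real line that are restrictions of entire functions of
exponential type at most `σ`. -/
def Bspace (σ : ℝ) : Set (ℝ → ℂ) :=
  {f | (∃ M : ℝ, ∀ x : ℝ, ‖f x‖ ≤ M) ∧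
    ∃ F : ℂ → ℂ, Differentiable ℂ F ∧ HasExpType σ F ∧ ∀ x : ℝ, F x = f x}

/-- The operator `y ↦ -y'' + λ y`. -/
noncomputable def opT (lam : ℂ) (f : ℝ → ℂ) (x : ℝ) : ℂ := -deriv (deriv f) x + lam * f x

/-- The operator norm of `y ↦ -y'' + λ y` on `B_σ` with the uniform norm: the supremum of `|(T f)(x)|` over all
real `x` and all `f` in the unit ball of `B_σ`. -/
noncomputable def opNorm (σ : ℝ) (lam : ℂ) : ℝ≥0∞ :=
  ⨆ f ∈ Bspace σ, ⨆ (_ : ∀ x : ℝ, ‖f x‖ ≤ 1), ⨆ x : ℝ, ENNReal.ofReal ‖opT lam f x‖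

/-- The curve `γ(c) = (sin c / c)^2 - i (2 c - sin 2c) / (2 c^2)`, `γ(0) = 1`. -/
noncomputable def curve (c : ℝ) : ℂ :=
  if c = 0 then 1 else
    (((Real.sin c / c) ^ 2 : ℝ) : ℂ) - Complex.I * (((2 * c - Real.sin (2 * c)) / (2 * c ^ 2) : ℝ) : ℂ)

/-- `κ(c) = (sin c - c cos c) / (c^2 sin c)`, `κ(0) = 1/3`. -/
noncomputable def kappa (c : ℝ) : ℝ :=
  if c = 0 then 1 / 3 else (Real.sin c - c * Real.cos c) / (c ^ 2 * Real.sin c)

/-- `μ(c) = (2 c - sin 2c) / (2 c^2 sin c)`, `μ(0) = 2/3`. -/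
noncomputable def mass (c : ℝ) : ℝ :=
  if c = 0 then 2 / 3 else (2 * c - Real.sin (2 * c)) / (2 * c ^ 2 * Real.sin c)

section bridge

open Pool.Agent.Helper935.EX

lemma curve_eq (c : ℝ) : curve c = gam c := by
  unfold curve gam
  by_cases h : c = 0
  · subst h; simp
  · rw [if_neg h, Real.sinc_of_ne_zero h, Real.sinc_of_ne_zero (mul_ne_zero two_ne_zero h)]
    have : (1 - Real.sin (2 * c) / (2 * c)) / c = (2 * c - Real.sin (2 * c)) / (2 * c ^ 2) := by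
      field_simp
    rw [this]

lemma deriv2_real {F : ℂ → ℂ} (hF : Differentiable ℂ F) {f : ℝ → ℂ} (hf : ∀ x : ℝ, F x = f x) (x : ℝ) :
    deriv (deriv f) x = deriv (deriv F) x := by
  have h1 : ∀ (G : ℂ → ℂ), Differentiable ℂ G → deriv (fun x : ℝ => G x) = fun x : ℝ => deriv G x := by
    intro G hG
    funext y
    exact (hG y).hasDerivAt.comp_ofReal.deriv
  have h2 : f = fun x : ℝ => F x := funext fun x => (hf x).symm
  rw [h2, h1 F hF, h1 (deriv F) (differentiable_deriv hF)]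

lemma deriv_affine {F : ℂ → ℂ} (hF : Differentiable ℂ F) (a b z : ℂ) :
    deriv (fun z => F (a * z + b)) z = a * deriv F (a * z + b) := by
  have h1 : HasDerivAt (fun z : ℂ => a * z + b) a z := by
    simpa using ((hasDerivAt_id z).const_mul a).add_const b
  have h2 := (HasDerivAt.comp (h₂ := F) (h := fun z : ℂ => a * z + b) z (hF _).hasDerivAt h1).deriv
  have h3 : F ∘ (fun z : ℂ => a * z + b) = fun z => F (a * z + b) := rfl
  rw [h3] at h2
  rw [h2, mul_comm]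

lemma deriv2_affine {F : ℂ → ℂ} (hF : Differentiable ℂ F) (a b z : ℂ) :
    deriv (deriv (fun z => F (a * z + b))) z = a ^ 2 * deriv (deriv F) (a * z + b) := by
  have h1 : deriv (fun z => F (a * z + b)) = fun z => a * deriv F (a * z + b) :=
    funext (deriv_affine hF a b)
  rw [h1]
  have h2 : HasDerivAt (fun z => deriv F (a * z + b)) (a * deriv (deriv F) (a * z + b)) z := by
    have hd : DifferentiableAt ℂ (fun z => deriv F (a * z + b)) z :=
      ((differentiable_deriv hF).comp (by fun_prop : Differentiable ℂ fun z : ℂ => a * z + b)) z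
    have := hd.hasDerivAt
    rwa [deriv_affine (differentiable_deriv hF) a b z] at this
  rw [(h2.const_mul a).deriv]; ring

/-- upper estimate -/
lemma opNorm_le {σ : ℝ} (hσ : 0 < σ) {lam : ℂ} {c ρ : ℝ} (hc : |c| < Real.pi) (hρ : 0 ≤ ρ)
    (hlam : lam = (σ : ℂ) ^ 2 * (-(kappa c : ℂ) + ρ * Complex.exp (-(c * Complex.I)))) :
    opNorm σ lam ≤ ENNReal.ofReal (σ ^ 2 * (ρ + mass c)) := by
  refine iSup₂_le fun f hf => iSup_le fun hb => iSup_le fun x => ENNReal.ofReal_le_ofReal ?_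
  obtain ⟨-, F, hFd, hFt, hFf⟩ := hf
  have hσ' : (σ : ℂ) ≠ 0 := by exact_mod_cast hσ.ne'
  set g : ℂ → ℂ := fun z => F ((σ : ℂ)⁻¹ * z + x) with hg
  have hgd : Differentiable ℂ g := hFd.comp (by fun_prop)
  have hgt : ExpType 1 g := by
    intro ε hε
    obtain ⟨C, hC⟩ := hFt (σ * ε) (by positivity)
    refine ⟨|C| * Real.exp ((σ + σ * ε) * |x|), fun z => ?_⟩
    rw [hg]; beta_reduce
    refine (hC _).trans ?_
    have h1 : ‖(σ : ℂ)⁻¹ * z + x‖ ≤ σ⁻¹ * ‖z‖ + |x| := by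
      refine (norm_add_le _ _).trans ?_
      rw [norm_mul, norm_inv, Complex.norm_real, Complex.norm_real, Real.norm_of_nonneg hσ.le, Real.norm_eq_abs]
    calc C * Real.exp ((σ + σ * ε) * ‖(σ : ℂ)⁻¹ * z + x‖)
        ≤ |C| * Real.exp ((σ + σ * ε) * (σ⁻¹ * ‖z‖ + |x|)) := by
          apply mul_le_mul (le_abs_self C) _ (Real.exp_pos _).le (abs_nonneg _)
          apply Real.exp_le_exp.2
          exact mul_le_mul_of_nonneg_left h1 (by positivity)
      _ = |C| * Real.exp ((σ + σ * ε) * |x|) * Real.exp ((1 + ε) * ‖z‖) := by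
          rw [mul_assoc, ← Real.exp_add]; congr 2; field_simp; ring
  have hgb : ∀ t : ℝ, ‖g t‖ ≤ 1 := by
    intro t
    have e : (σ : ℂ)⁻¹ * t + x = ((σ⁻¹ * t + x : ℝ) : ℂ) := by push_cast; ring
    rw [hg]; beta_reduce
    rw [e, hFf]; exact hb _
  have hlam' : lam / (σ : ℂ) ^ 2 = -(kapp c : ℂ) + ρ * Complex.exp (-(c * Complex.I)) := by
    rw [hlam]; field_simp; rfl
  have hu := upper_param hc hρ hlam' hgd hgt hgb
  have d2 : deriv (deriv g) 0 = (σ : ℂ)⁻¹ ^ 2 * deriv (deriv F) x := by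
    rw [hg, deriv2_affine hFd, mul_zero, zero_add]
  have v : g 0 = F x := by rw [hg]; beta_reduce; rw [mul_zero, zero_add]
  have e : opT lam f x = (σ : ℂ) ^ 2 * (-deriv (deriv g) 0 + lam / (σ : ℂ) ^ 2 * g 0) := by
    unfold opT
    rw [deriv2_real hFd hFf, d2, v, ← hFf]
    field_simp
  rw [e, norm_mul, norm_pow, Complex.norm_real, Real.norm_of_nonneg hσ.le]
  exact mul_le_mul_of_nonneg_left hu (by positivity)

/-- lower estimate -/
lemma le_opNorm {σ : ℝ} (hσ : 0 < σ) (lam : ℂ) (c : ℝ) :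
    ENNReal.ofReal ‖lam + (σ : ℂ) ^ 2 * curve c‖ ≤ opNorm σ lam := by
  have hσ' : (σ : ℂ) ≠ 0 := by exact_mod_cast hσ.ne'
  set F : ℂ → ℂ := fun z => fe c ((σ : ℂ) * z + 0) with hF
  set f : ℝ → ℂ := fun x => F x with hf
  have hFd : Differentiable ℂ F := (differentiable_fe c).comp (by fun_prop)
  have hb : ∀ x : ℝ, ‖f x‖ ≤ 1 := by
    intro x
    have e : (σ : ℂ) * x + 0 = ((σ * x : ℝ) : ℂ) := by push_cast; ring
    rw [hf, hF]; beta_reduce
    rw [e]; exact norm_fe_le c _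
  have hmem : f ∈ Bspace σ := by
    refine ⟨⟨1, hb⟩, F, hFd, ?_, fun x => rfl⟩
    intro ε hε
    obtain ⟨C, hC⟩ := expType_fe c (ε / σ) (by positivity)
    refine ⟨C, fun z => ?_⟩
    rw [hF]; beta_reduce
    refine (hC _).trans (le_of_eq ?_)
    rw [add_zero, norm_mul, Complex.norm_real, Real.norm_of_nonneg hσ.le]
    congr 2
    field_simp
  have hval : ‖opT lam f 0‖ = ‖lam + (σ : ℂ) ^ 2 * curve c‖ := by
    have d2 : deriv (deriv f) 0 = (σ : ℂ) ^ 2 * deriv (deriv (fe c)) 0 := by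
      have := deriv2_real hFd (f := f) (fun x => rfl) 0
      rw [this, hF, deriv2_affine (differentiable_fe c)]
      simp
    have v : f 0 = fe c 0 := by rw [hf, hF]; simp
    have h1 := fe_value c (lam / (σ : ℂ) ^ 2)
    have e : opT lam f 0 = Complex.exp (c * Complex.I) * (lam + (σ : ℂ) ^ 2 * curve c) := by
      unfold opT
      rw [d2, v, curve_eq]
      have h2 : (lam / (σ : ℂ) ^ 2) * (σ : ℂ) ^ 2 = lam := by field_simp
      linear_combination (σ : ℂ) ^ 2 * h1 + (Complex.exp (c * Complex.I) - fe c 0) * h2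
    rw [e, norm_mul, Complex.norm_exp_ofReal_mul_I, one_mul]
  rw [← hval]
  exact le_iSup₂_of_le f hmem (le_iSup_of_le hb (le_iSup_of_le (0 : ℝ) le_rfl))

end bridge

open Pool.Agent.Helper935.EX in
/-- The norm of `y ↦ -y'' + λ y` on `B_σ` for every complex `λ`. -/
theorem result (σ : ℝ) (hσ : 0 < σ) (lam : ℂ) :
    (opNorm σ lam = ⨆ c ∈ Set.Icc (-Real.pi) Real.pi, ENNReal.ofReal ‖lam + (σ : ℂ) ^ 2 * curve c‖) ∧
    (∃ c ρ : ℝ, |c| < Real.pi ∧ 0 ≤ ρ ∧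
      lam = (σ : ℂ) ^ 2 * (-(kappa c : ℂ) + ρ * Complex.exp (-(c * Complex.I)))) ∧
    (∀ c ρ : ℝ, |c| < Real.pi → 0 ≤ ρ →
      lam = (σ : ℂ) ^ 2 * (-(kappa c : ℂ) + ρ * Complex.exp (-(c * Complex.I))) →
      opNorm σ lam = ENNReal.ofReal (σ ^ 2 * (ρ + mass c))) := by
  have hσ' : (σ : ℂ) ≠ 0 := by exact_mod_cast hσ.ne'
  have hex : ∃ c ρ : ℝ, |c| < Real.pi ∧ 0 ≤ ρ ∧
      lam = (σ : ℂ) ^ 2 * (-(kappa c : ℂ) + ρ * Complex.exp (-(c * Complex.I))) := by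
    obtain ⟨c, ρ, hc, hρ, h⟩ := exists_param (lam / (σ : ℂ) ^ 2)
    refine ⟨c, ρ, hc, hρ, ?_⟩
    have h2 : lam = (σ : ℂ) ^ 2 * (lam / (σ : ℂ) ^ 2) := by field_simp
    rw [h] at h2
    exact h2
  have hval : ∀ c ρ : ℝ, |c| < Real.pi → 0 ≤ ρ →
      lam = (σ : ℂ) ^ 2 * (-(kappa c : ℂ) + ρ * Complex.exp (-(c * Complex.I))) →
      ‖lam + (σ : ℂ) ^ 2 * curve c‖ = σ ^ 2 * (ρ + mass c) := by
    intro c ρ hc hρ h
    have h1 : lam / (σ : ℂ) ^ 2 = -(kapp c : ℂ) + ρ * Complex.exp (-(c * Complex.I)) := by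
      rw [h]; field_simp; rfl
    have h2 := param_value hc hρ h1
    have h3 : lam + (σ : ℂ) ^ 2 * curve c = (σ : ℂ) ^ 2 * (lam / (σ : ℂ) ^ 2 + gam c) := by
      rw [curve_eq]; field_simp
    rw [h3, norm_mul, h2, norm_pow, Complex.norm_real, Real.norm_of_nonneg hσ.le]
    rfl
  refine ⟨?_, hex, ?_⟩
  · apply le_antisymm
    · obtain ⟨c, ρ, hc, hρ, h⟩ := hex
      refine (opNorm_le hσ hc hρ h).trans ?_
      rw [← hval c ρ hc hρ h]
      rw [abs_lt] at hc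
      exact le_iSup₂_of_le c ⟨hc.1.le, hc.2.le⟩ le_rfl
    · exact iSup₂_le fun c _ => le_opNorm hσ lam c
  · intro c ρ hc hρ h
    apply le_antisymm (opNorm_le hσ hc hρ h)
    rw [← hval c ρ hc hρ h]
    exact le_opNorm hσ lam c

end Pool.Agent.Results.MP_977360_an.BernsteinNorm
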