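import Pool.Agent.Helper797.BsFinal

set_option autoImplicit false

namespace Pool.Agent.Results.MP_977360_an.NormFormula

/-- `F` is an entire function of exponential type at most `σ`. -/
def IsExpType (σ : ℝ) (F : ℂ → ℂ) : Prop :=
  Differentiable ℂ F ∧
    ∀ ε : ℝ, 0 < ε → ∃ C : ℝ, ∀ z : ℂ, ‖F z‖ ≤ C * Real.exp ((σ + ε) * ‖z‖)

/-- The space `B_σ`: the bounded functions on `ℝ` that are restrictions to `ℝ` of entire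
functions of exponential type at most `σ`. -/
def B (σ : ℝ) : Set (ℝ → ℂ) :=
  {f | (∃ M : ℝ, ∀ x : ℝ, ‖f x‖ ≤ M) ∧ ∃ F : ℂ → ℂ, IsExpType σ F ∧ ∀ x : ℝ, f x = F x}

/-- The operator `T_λ y = -y'' + λ y`. -/
noncomputable def T (lam : ℂ) (f : ℝ → ℂ) : ℝ → ℂ :=
  fun x => -deriv (deriv f) x + lam * f x

/-- `N` is the operator norm of `T_λ` on `B_σ` with the uniform norm: the supremum of
`|(T_λ f)(x)|` over all `f ∈ B_σ` with `|f| ≤ 1` on `ℝ` and all `x ∈ ℝ`. -/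
def IsOperatorNorm (σ : ℝ) (lam : ℂ) (N : ℝ) : Prop :=
  IsLUB {r : ℝ | ∃ f ∈ B σ, (∀ x : ℝ, ‖f x‖ ≤ 1) ∧ ∃ x : ℝ, r = ‖T lam f x‖} N

/-- `κ(a) = 1/a² - cot(a)/a`. -/
noncomputable def kappa (a : ℝ) : ℝ := 1 / a ^ 2 - Real.cot a / a

/-- `ρ(a) = (2a - sin 2a)/(2a² sin a)`. -/
noncomputable def rho (a : ℝ) : ℝ := (2 * a - Real.sin (2 * a)) / (2 * a ^ 2 * Real.sin a)

/-- `a` is a root in `(0, π)` of the equation `(|Im λ|/σ² + 1/a) cot a - 1/a² = Re λ/σ²`. -/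
def IsRoot (σ : ℝ) (lam : ℂ) (a : ℝ) : Prop :=
  0 < a ∧ a < Real.pi ∧
    (|lam.im| / σ ^ 2 + 1 / a) * Real.cot a - 1 / a ^ 2 = lam.re / σ ^ 2

section aux

open Helper797

lemma kappa_eq (a : ℝ) : kappa a = Bs.kap a := by
  unfold kappa Bs.kap
  rw [Real.cot_eq_cos_div_sin, div_div, mul_comm (Real.sin a) a]

lemma rho_eq {a : ℝ} : rho a = Bs.rho a := by
  unfold rho Bs.rho
  rw [Real.sin_two_mul, show 2 * a - 2 * Real.sin a * Real.cos a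
    = 2 * (a - Real.sin a * Real.cos a) by ring, mul_assoc 2 (a ^ 2) (Real.sin a),
    mul_div_mul_left _ _ (two_ne_zero)]

lemma growth {σ : ℝ} (hσ : 0 < σ) {F : ℂ → ℂ} (hF : IsExpType σ F) {f : ℝ → ℂ}
    (h : ∀ x : ℝ, f x = F x) {M : ℝ} (hM : ∀ x : ℝ, ‖f x‖ ≤ M) (z : ℂ) :
    ‖F z‖ ≤ M * Real.exp (σ * |z.im|) :=
  Bs.pl_bound hF.1 hσ.le hF.2 (fun x => by rw [← h]; exact hM x) z

lemma expType_of_im {σ K : ℝ} (hσ : 0 < σ) (hK : 0 ≤ K) {F : ℂ → ℂ} (hF : Differentiable ℂ F)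
    (h : ∀ z : ℂ, ‖F z‖ ≤ K * Real.exp (σ * |z.im|)) : IsExpType σ F :=
  ⟨hF, fun _ hε => ⟨K, fun z => (h z).trans
    (mul_le_mul_of_nonneg_left (Bs.exp_im_le hσ.le hε z) hK)⟩⟩

lemma T_eq {lam : ℂ} {F : ℂ → ℂ} (hF : Differentiable ℂ F) {f : ℝ → ℂ}
    (h : ∀ x : ℝ, f x = F x) (x : ℝ) : T lam f x = -deriv (deriv F) x + lam * F x := by
  unfold T
  rw [Bs.real_deriv2 hF h, h]

lemma T_maps {σ : ℝ} (hσ : 0 < σ) (lam : ℂ) {f : ℝ → ℂ} (hf : f ∈ B σ) : T lam f ∈ B σ := by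
  obtain ⟨⟨M, hM⟩, F, hF, hfF⟩ := hf
  have hM0 : 0 ≤ M := (norm_nonneg _).trans (hM 0)
  have hg := growth hσ hF hfF hM
  have h2 := Bs.deriv2_growth hF.1 hσ.le hM0 hg
  set K : ℝ := M * Real.exp σ * Real.exp σ with hK
  have hK0 : 0 ≤ K := by positivity
  have hb : ∀ z : ℂ, ‖-deriv (deriv F) z + lam * F z‖
      ≤ (K + ‖lam‖ * M) * Real.exp (σ * |z.im|) := by
    intro z
    refine (norm_add_le _ _).trans ?_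
    rw [norm_neg, norm_mul, add_mul, mul_assoc ‖lam‖]
    exact add_le_add (h2 z) (mul_le_mul_of_nonneg_left (hg z) (norm_nonneg lam))
  refine ⟨⟨K + ‖lam‖ * M, fun x => ?_⟩, fun z => -deriv (deriv F) z + lam * F z, ?_,
    fun x => T_eq hF.1 hfF x⟩
  · rw [T_eq hF.1 hfF x]
    simpa using hb x
  · exact expType_of_im hσ (by positivity) (hF.1.deriv.deriv.neg.add (hF.1.const_mul lam)) hb

lemma T_upper {σ : ℝ} (hσ : 0 < σ) (lam : ℂ) {f : ℝ → ℂ} (hf : f ∈ B σ)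
    (hf1 : ∀ x : ℝ, ‖f x‖ ≤ 1) {a : ℝ} (ha0 : 0 < a) (ha1 : a < Real.pi) (x : ℝ) :
    ‖T lam f x‖ ≤ σ ^ 2 * Bs.rho a + ‖lam + (σ:ℂ) ^ 2 * (Bs.kap a : ℝ)‖ := by
  obtain ⟨-, F, hF, hfF⟩ := hf
  rw [T_eq hF.1 hfF x]
  have h := Bs.upper hF.1 hσ zero_le_one (growth hσ hF hfF hf1) lam ha0 ha1 x
  rwa [mul_one] at h

lemma T_lower {σ : ℝ} (hσ : 0 < σ) (lam : ℂ) {F : ℂ → ℂ} (hF : Differentiable ℂ F)
    (hK : ∃ K : ℝ, 0 ≤ K ∧ ∀ z, ‖F z‖ ≤ K * Real.exp (σ * |z.im|))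
    (h1 : ∀ x : ℝ, ‖F x‖ ≤ 1) {v : ℂ} (hv : -deriv (deriv F) 0 + lam * F 0 = v) :
    ∃ f ∈ B σ, (∀ x : ℝ, ‖f x‖ ≤ 1) ∧ ∃ x : ℝ, ‖v‖ = ‖T lam f x‖ := by
  obtain ⟨K, hK0, hK⟩ := hK
  refine ⟨fun x : ℝ => F x, ⟨⟨1, h1⟩, F, expType_of_im hσ hK0 hF hK, fun x => rfl⟩, h1, 0, ?_⟩
  rw [T_eq hF (fun x => rfl) 0, ← hv, Complex.ofReal_zero]

/-- the unit ball values -/
abbrev Vals (σ : ℝ) (lam : ℂ) : Set ℝ :=
  {r : ℝ | ∃ f ∈ B σ, (∀ x : ℝ, ‖f x‖ ≤ 1) ∧ ∃ x : ℝ, r = ‖T lam f x‖}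

lemma le_upper {σ : ℝ} (hσ : 0 < σ) (lam : ℂ) {a : ℝ} (ha0 : 0 < a) (ha1 : a < Real.pi) {r : ℝ}
    (hr : r ∈ Vals σ lam) : r ≤ σ ^ 2 * Bs.rho a + ‖lam + (σ:ℂ) ^ 2 * (Bs.kap a : ℝ)‖ := by
  obtain ⟨f, hf, hf1, x, rfl⟩ := hr
  exact T_upper hσ lam hf hf1 ha0 ha1 x

lemma real_limit {σ : ℝ} {lam : ℂ} (h0 : lam.im = 0) (h1 : -(σ ^ 2 / 3) ≤ lam.re) :
    Filter.Tendsto (fun a : ℝ => σ ^ 2 * Bs.rho a + ‖lam + (σ:ℂ) ^ 2 * (Bs.kap a : ℝ)‖)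
      (nhdsWithin 0 (Set.Ioi 0)) (nhds (lam.re + σ ^ 2)) := by
  have t1 := Bs.rho_tendsto.const_mul (σ ^ 2)
  have t2 : Filter.Tendsto (fun a : ℝ => ((Bs.kap a : ℝ) : ℂ)) (nhdsWithin 0 (Set.Ioi 0))
      (nhds (((1 / 3 : ℝ) : ℂ))) := (Complex.continuous_ofReal.tendsto _).comp Bs.kap_tendsto
  have t3 := ((t2.const_mul ((σ:ℂ) ^ 2)).const_add lam).norm
  have t4 := t1.add t3
  have e : σ ^ 2 * (2 / 3) + ‖lam + (σ:ℂ) ^ 2 * ((1 / 3 : ℝ) : ℂ)‖ = lam.re + σ ^ 2 := by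
    have e1 : lam + (σ:ℂ) ^ 2 * ((1 / 3 : ℝ) : ℂ) = ((lam.re + σ ^ 2 / 3 : ℝ) : ℂ) := by
      apply Complex.ext
      · rw [← Complex.ofReal_pow, ← Complex.ofReal_mul, Complex.add_re, Complex.ofReal_re,
          Complex.ofReal_re]
        ring
      · rw [← Complex.ofReal_pow, ← Complex.ofReal_mul, Complex.add_im, Complex.ofReal_im,
          Complex.ofReal_im, h0, add_zero]
    rw [e1, Complex.norm_real, Real.norm_eq_abs, abs_of_nonneg (by linarith)]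
    ring
  rw [e] at t4
  exact t4

lemma small_pos : ∀ᶠ a : ℝ in nhdsWithin 0 (Set.Ioi 0), 0 < a ∧ a < Real.pi := by
  filter_upwards [Ioo_mem_nhdsGT Real.pi_pos] with a ha
  exact ⟨ha.1, ha.2⟩

lemma real_case {σ : ℝ} (hσ : 0 < σ) {lam : ℂ} (h0 : lam.im = 0) (h1 : -(σ ^ 2 / 3) ≤ lam.re) :
    IsOperatorNorm σ lam (lam.re + σ ^ 2) := by
  constructor
  · intro r hr
    refine ge_of_tendsto (real_limit h0 h1) ?_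
    filter_upwards [small_pos] with a ha
    exact le_upper hσ lam ha.1 ha.2 hr
  · intro N hN
    obtain ⟨F, hF, hK, hF1, hv⟩ := Bs.lower_real hσ lam
    refine le_trans ?_ (hN (T_lower hσ lam hF hK hF1 hv))
    calc lam.re + σ ^ 2 = (lam + (σ:ℂ) ^ 2).re := by
          rw [← Complex.ofReal_pow, Complex.add_re, Complex.ofReal_re]
      _ ≤ ‖lam + (σ:ℂ) ^ 2‖ := Complex.re_le_norm _

lemma root_case {σ : ℝ} (hσ : 0 < σ) {lam : ℂ} {a : ℝ} (ha0 : 0 < a) (ha1 : a < Real.pi)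
    (h : Bs.Psi (|lam.im| / σ ^ 2) a = lam.re / σ ^ 2) :
    IsOperatorNorm σ lam (|lam.im| / Real.sin a + σ ^ 2 * Bs.rho a) := by
  constructor
  · intro r hr
    have h1 := le_upper hσ lam ha0 ha1 hr
    rw [Bs.norm_at_root hσ ha0 ha1 h] at h1
    linarith
  · intro N hN
    obtain ⟨F, hF, hK, hF1, hv⟩ := Bs.lower hσ ha0 ha1 h
    refine le_trans ?_ (hN (T_lower hσ lam hF hK hF1 hv))
    rw [Complex.norm_real]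
    exact le_abs_self _

lemma not_real {σ : ℝ} (hσ : 0 < σ) {lam : ℂ} (h : ¬ (lam.im = 0 ∧ -(σ ^ 2 / 3) ≤ lam.re)) :
    ¬ (|lam.im| / σ ^ 2 = 0 ∧ -1 / 3 ≤ lam.re / σ ^ 2) := by
  have hσ2 : 0 < σ ^ 2 := by positivity
  rintro ⟨h1, h2⟩
  apply h
  constructor
  · rcases div_eq_zero_iff.mp h1 with h3 | h3
    · exact abs_eq_zero.mp h3
    · exact absurd h3 hσ2.ne'
  · rw [le_div_iff₀ hσ2] at h2
    linarith

end aux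

/-- The norm of `T_λ = -d²/dx² + λ` on `B_σ` for every `λ ∈ ℂ`. -/
theorem result (σ : ℝ) (hσ : 0 < σ) (lam : ℂ) :
    (∀ f ∈ B σ, T lam f ∈ B σ) ∧
    ∃ N : ℝ, IsOperatorNorm σ lam N ∧
      (lam.im = 0 → -(σ ^ 2 / 3) ≤ lam.re → N = lam.re + σ ^ 2) ∧
      (¬ (lam.im = 0 ∧ -(σ ^ 2 / 3) ≤ lam.re) →
        ∃ a : ℝ, IsRoot σ lam a ∧ (∀ a' : ℝ, IsRoot σ lam a' → a' = a) ∧
          N = |lam.im| / Real.sin a + σ ^ 2 * rho a) ∧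
      IsGLB {v : ℝ | ∃ a : ℝ, 0 < a ∧ a < Real.pi ∧
        v = σ ^ 2 * rho a + ‖lam + (σ:ℂ) ^ 2 * (kappa a : ℂ)‖} N ∧
      (lam.im ≠ 0 → ∀ ξ : ℝ, |ξ| ≤ σ → ‖(ξ:ℂ) ^ 2 + lam‖ < N) := by
  refine ⟨fun f hf => T_maps hσ lam hf, ?_⟩
  by_cases h : lam.im = 0 ∧ -(σ ^ 2 / 3) ≤ lam.re
  · obtain ⟨h0, h1⟩ := h
    have hN := real_case hσ h0 h1
    refine ⟨lam.re + σ ^ 2, hN, fun _ _ => rfl, fun h => absurd ⟨h0, h1⟩ h, ⟨?_, ?_⟩,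
      fun h => absurd h0 h⟩
    · rintro v ⟨a, ha0, ha1, rfl⟩
      rw [rho_eq, kappa_eq]
      exact hN.2 (fun r hr => le_upper hσ lam ha0 ha1 hr)
    · intro v hv
      refine ge_of_tendsto (real_limit h0 h1) ?_
      filter_upwards [small_pos] with a ha
      refine hv ⟨a, ha.1, ha.2, ?_⟩
      rw [rho_eq, kappa_eq]
  · obtain ⟨a, ⟨⟨ha0, ha1⟩, ha⟩, huniq⟩ := Helper797.Bs.root_exists_unique
      (by positivity : 0 ≤ |lam.im| / σ ^ 2) (not_real hσ h)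
    have hN := root_case hσ ha0 ha1 ha
    refine ⟨_, hN, fun h0 h1 => absurd ⟨h0, h1⟩ h, fun _ => ⟨a, ⟨ha0, ha1, ha⟩, ?_, ?_⟩,
      ⟨?_, ?_⟩, fun him ξ hξ => Helper797.Bs.symbol_lt hσ ha0 ha1 ha him hξ⟩
    · rintro a' ⟨h1, h2, h3⟩
      exact huniq a' ⟨⟨h1, h2⟩, h3⟩
    · rw [rho_eq]
    · rintro v ⟨b, hb0, hb1, rfl⟩
      rw [rho_eq, kappa_eq]
      exact hN.2 (fun r hr => le_upper hσ lam hb0 hb1 hr)
    · intro v hv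
      refine hv ⟨a, ha0, ha1, ?_⟩
      rw [rho_eq, kappa_eq, Helper797.Bs.norm_at_root hσ ha0 ha1 ha]
      ring

end Pool.Agent.Results.MP_977360_an.NormFormula
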